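import Mathlib
import Pool.Agent.V11155.Wild5

/-!
# A closed set of dicots with the evil twin property but without evilly normal evil kernel

Let `u = {0, * | 0}` and `e = {0, u | 0, *2}`. The closed set consists of the sums of copies of `*`,
`*2`, `-u`, `u` and `e`. The games `-u` and `e` belong to no evil kernel, but `-u + e + e` belongs to
each of them.
-/

set_option autoImplicit false

namespace Pool.Agent.Results.MP_df1cff_co.NoNormalKernel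

open Pool.Agent.V11155.Partizan Pool.Agent.V11155.Partizan.Game Pool.Agent.V11155.Wild5

open Classical in
/-- The twin of `G`: it is `G` if `G ∈ K` and `G + *` otherwise. -/
noncomputable def twin (K : Set Game) (G : Game) : Game := if G ∈ K then G else add G star

/-- `K` is an evil kernel of `A`. -/
def IsEvilKernel (A K : Set Game) : Prop :=
  K ⊆ A ∧ ∀ G ∈ A, oPlus G = oMinus (twin K G) ∧ oMinus G = oPlus (twin K G)

/-- The pair `(A, K)` is evilly normal (for a closed set `A` of dicotic games and an evil kernel `K`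
of `A`). -/
def EvillyNormal (A K : Set Game) : Prop :=
  ∀ G ∈ A, ∀ H ∈ A, (add G H ∉ K ↔ (G ∉ K ∧ H ∉ K))

/-! ### The games -/

/-- `*2 = {0, * | 0, *}` -/
def g2 : Game := mk 2 2 ![zero, star] ![zero, star]

/-- `-u = {0 | 0, *}` -/
def gc : Game := mk 1 2 ![zero] ![zero, star]

/-- `u = {0, * | 0}` -/
def gu : Game := mk 2 1 ![zero, star] ![zero]

/-- `e = {0, u | 0, *2}` -/
def ge : Game := mk 2 2 ![zero, gu] ![zero, g2]

/-- Left options of the generators `*`, `*2`, `-u`, `u`, `e`. -/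
def Lo : Fin 5 → List (Fin 5 → ℕ) :=
  ![[![0, 0, 0, 0, 0]], [![0, 0, 0, 0, 0], ![1, 0, 0, 0, 0]], [![0, 0, 0, 0, 0]],
    [![0, 0, 0, 0, 0], ![1, 0, 0, 0, 0]], [![0, 0, 0, 0, 0], ![0, 0, 0, 1, 0]]]

/-- Right options of the generators `*`, `*2`, `-u`, `u`, `e`. -/
def Ro : Fin 5 → List (Fin 5 → ℕ) :=
  ![[![0, 0, 0, 0, 0]], [![0, 0, 0, 0, 0], ![1, 0, 0, 0, 0]],
    [![0, 0, 0, 0, 0], ![1, 0, 0, 0, 0]], [![0, 0, 0, 0, 0]],
    [![0, 0, 0, 0, 0], ![0, 1, 0, 0, 0]]]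

theorem vec5_ext {x y : Fin 5 → ℕ} :
    x = y ↔ x 0 = y 0 ∧ x 1 = y 1 ∧ x 2 = y 2 ∧ x 3 = y 3 ∧ x 4 = y 4 := by
  constructor
  · rintro rfl; exact ⟨rfl, rfl, rfl, rfl, rfl⟩
  · rintro ⟨h0, h1, h2, h3, h4⟩
    funext j
    fin_cases j
    · exact h0
    · exact h1
    · exact h2
    · exact h3
    · exact h4

theorem lo_iff (v x : Fin 5 → ℕ) : Move Lo v x ↔
    (1 ≤ v 0 ∧ x = ![v 0 - 1, v 1, v 2, v 3, v 4]) ∨
    (1 ≤ v 1 ∧ x = ![v 0, v 1 - 1, v 2, v 3, v 4]) ∨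
    (1 ≤ v 1 ∧ x = ![v 0 + 1, v 1 - 1, v 2, v 3, v 4]) ∨
    (1 ≤ v 2 ∧ x = ![v 0, v 1, v 2 - 1, v 3, v 4]) ∨
    (1 ≤ v 3 ∧ x = ![v 0, v 1, v 2, v 3 - 1, v 4]) ∨
    (1 ≤ v 3 ∧ x = ![v 0 + 1, v 1, v 2, v 3 - 1, v 4]) ∨
    (1 ≤ v 4 ∧ x = ![v 0, v 1, v 2, v 3, v 4 - 1]) ∨
    (1 ≤ v 4 ∧ x = ![v 0, v 1, v 2, v 3 + 1, v 4 - 1]) := by
  unfold Move
  simp only [Fin.exists_fin_succ, Fin.isValue, vec5_ext, Lo]
  simp
  generalize v 0 = a
  generalize v 1 = b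
  generalize v 2 = c
  generalize v 3 = d
  generalize v 4 = e
  generalize x 0 = a'
  generalize x 1 = b'
  generalize x 2 = c'
  generalize x 3 = d'
  generalize x 4 = e'
  constructor
  · rintro (h | ⟨h, h' | h'⟩ | h | ⟨h, h' | h'⟩ | ⟨h, h' | h'⟩)
    · exact Or.inl (by omega)
    · exact Or.inr (Or.inl (by omega))
    · exact Or.inr (Or.inr (Or.inl (by omega)))
    · exact Or.inr (Or.inr (Or.inr (Or.inl (by omega))))
    · exact Or.inr (Or.inr (Or.inr (Or.inr (Or.inl (by omega)))))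
    · exact Or.inr (Or.inr (Or.inr (Or.inr (Or.inr (Or.inl (by omega))))))
    · exact Or.inr (Or.inr (Or.inr (Or.inr (Or.inr (Or.inr (Or.inl (by omega)))))))
    · exact Or.inr (Or.inr (Or.inr (Or.inr (Or.inr (Or.inr (Or.inr (by omega)))))))
  · rintro (h | h | h | h | h | h | h | h)
    · exact Or.inl (by omega)
    · exact Or.inr (Or.inl ⟨h.1, Or.inl (by omega)⟩)
    · exact Or.inr (Or.inl ⟨h.1, Or.inr (by omega)⟩)
    · exact Or.inr (Or.inr (Or.inl (by omega)))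
    · exact Or.inr (Or.inr (Or.inr (Or.inl ⟨h.1, Or.inl (by omega)⟩)))
    · exact Or.inr (Or.inr (Or.inr (Or.inl ⟨h.1, Or.inr (by omega)⟩)))
    · exact Or.inr (Or.inr (Or.inr (Or.inr ⟨h.1, Or.inl (by omega)⟩)))
    · exact Or.inr (Or.inr (Or.inr (Or.inr ⟨h.1, Or.inr (by omega)⟩)))

theorem ro_iff (v x : Fin 5 → ℕ) : Move Ro v x ↔
    (1 ≤ v 0 ∧ x = ![v 0 - 1, v 1, v 2, v 3, v 4]) ∨
    (1 ≤ v 1 ∧ x = ![v 0, v 1 - 1, v 2, v 3, v 4]) ∨
    (1 ≤ v 1 ∧ x = ![v 0 + 1, v 1 - 1, v 2, v 3, v 4]) ∨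
    (1 ≤ v 2 ∧ x = ![v 0, v 1, v 2 - 1, v 3, v 4]) ∨
    (1 ≤ v 2 ∧ x = ![v 0 + 1, v 1, v 2 - 1, v 3, v 4]) ∨
    (1 ≤ v 3 ∧ x = ![v 0, v 1, v 2, v 3 - 1, v 4]) ∨
    (1 ≤ v 4 ∧ x = ![v 0, v 1, v 2, v 3, v 4 - 1]) ∨
    (1 ≤ v 4 ∧ x = ![v 0, v 1 + 1, v 2, v 3, v 4 - 1]) := by
  unfold Move
  simp only [Fin.exists_fin_succ, Fin.isValue, vec5_ext, Ro]
  simp
  generalize v 0 = a
  generalize v 1 = b
  generalize v 2 = c
  generalize v 3 = d
  generalize v 4 = e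
  generalize x 0 = a'
  generalize x 1 = b'
  generalize x 2 = c'
  generalize x 3 = d'
  generalize x 4 = e'
  constructor
  · rintro (h | ⟨h, h' | h'⟩ | ⟨h, h' | h'⟩ | h | ⟨h, h' | h'⟩)
    · exact Or.inl (by omega)
    · exact Or.inr (Or.inl (by omega))
    · exact Or.inr (Or.inr (Or.inl (by omega)))
    · exact Or.inr (Or.inr (Or.inr (Or.inl (by omega))))
    · exact Or.inr (Or.inr (Or.inr (Or.inr (Or.inl (by omega)))))
    · exact Or.inr (Or.inr (Or.inr (Or.inr (Or.inr (Or.inl (by omega))))))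
    · exact Or.inr (Or.inr (Or.inr (Or.inr (Or.inr (Or.inr (Or.inl (by omega)))))))
    · exact Or.inr (Or.inr (Or.inr (Or.inr (Or.inr (Or.inr (Or.inr (by omega)))))))
  · rintro (h | h | h | h | h | h | h | h)
    · exact Or.inl (by omega)
    · exact Or.inr (Or.inl ⟨h.1, Or.inl (by omega)⟩)
    · exact Or.inr (Or.inl ⟨h.1, Or.inr (by omega)⟩)
    · exact Or.inr (Or.inr (Or.inl ⟨h.1, Or.inl (by omega)⟩))
    · exact Or.inr (Or.inr (Or.inl ⟨h.1, Or.inr (by omega)⟩))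
    · exact Or.inr (Or.inr (Or.inr (Or.inl (by omega))))
    · exact Or.inr (Or.inr (Or.inr (Or.inr ⟨h.1, Or.inl (by omega)⟩)))
    · exact Or.inr (Or.inr (Or.inr (Or.inr ⟨h.1, Or.inr (by omega)⟩)))

/-! ### Outcomes of the sums -/

/-- Left wins moving first, for a position given by a vector. -/
def LF (m : ℕ) (v : Fin 5 → ℕ) : Prop :=
  (m = 0 ∧ L0 (v 0) (v 1) (v 2) (v 3) (v 4)) ∨ (m = 1 ∧ L1 (v 0) (v 1) (v 2) (v 3) (v 4))

/-- Right wins moving first, for a position given by a vector. -/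
def RF (m : ℕ) (v : Fin 5 → ℕ) : Prop :=
  (m = 0 ∧ R0 (v 0) (v 1) (v 2) (v 3) (v 4)) ∨ (m = 1 ∧ R1 (v 0) (v 1) (v 2) (v 3) (v 4))

theorem lo_term (v : Fin 5 → ℕ) : (∀ w, ¬ Move Lo v w) ↔
    (v 0 = 0 ∧ v 1 = 0 ∧ v 2 = 0 ∧ v 3 = 0 ∧ v 4 = 0) := by
  constructor
  · intro h
    refine ⟨?_, ?_, ?_, ?_, ?_⟩
    · by_contra hc
      exact h _ ((lo_iff _ _).2 (Or.inl ⟨by omega, rfl⟩))
    · by_contra hc
      exact h _ ((lo_iff _ _).2 (Or.inr (Or.inl ⟨by omega, rfl⟩)))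
    · by_contra hc
      exact h _ ((lo_iff _ _).2 (Or.inr (Or.inr (Or.inr (Or.inl ⟨by omega, rfl⟩)))))
    · by_contra hc
      exact h _ ((lo_iff _ _).2 (Or.inr (Or.inr (Or.inr (Or.inr (Or.inl ⟨by omega, rfl⟩))))))
    · by_contra hc
      exact h _ ((lo_iff _ _).2 (Or.inr (Or.inr (Or.inr (Or.inr (Or.inr (Or.inr
        (Or.inl ⟨by omega, rfl⟩))))))))
  · rintro ⟨h0, h1, h2, h3, h4⟩ w hw
    rw [lo_iff] at hw
    omega

theorem ro_term (v : Fin 5 → ℕ) : (∀ w, ¬ Move Ro v w) ↔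
    (v 0 = 0 ∧ v 1 = 0 ∧ v 2 = 0 ∧ v 3 = 0 ∧ v 4 = 0) := by
  constructor
  · intro h
    refine ⟨?_, ?_, ?_, ?_, ?_⟩
    · by_contra hc
      exact h _ ((ro_iff _ _).2 (Or.inl ⟨by omega, rfl⟩))
    · by_contra hc
      exact h _ ((ro_iff _ _).2 (Or.inr (Or.inl ⟨by omega, rfl⟩)))
    · by_contra hc
      exact h _ ((ro_iff _ _).2 (Or.inr (Or.inr (Or.inr (Or.inl ⟨by omega, rfl⟩)))))
    · by_contra hc
      exact h _ ((ro_iff _ _).2 (Or.inr (Or.inr (Or.inr (Or.inr (Or.inr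
        (Or.inl ⟨by omega, rfl⟩)))))))
    · by_contra hc
      exact h _ ((ro_iff _ _).2 (Or.inr (Or.inr (Or.inr (Or.inr (Or.inr (Or.inr
        (Or.inl ⟨by omega, rfl⟩))))))))
  · rintro ⟨h0, h1, h2, h3, h4⟩ w hw
    rw [ro_iff] at hw
    omega

theorem LF0_rec (v : Fin 5 → ℕ) :
    LF 0 v ↔ (((∀ w, ¬ Move Lo v w) ∧ False) ∨ ∃ w, Move Lo v w ∧ ¬ RF 0 w) := by
  simp only [lo_iff, or_and_right, exists_or, and_assoc, exists_and_left, exists_eq_left, and_false,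
    false_or]
  have hL : ∀ w : Fin 5 → ℕ, LF 0 w ↔ L0 (w 0) (w 1) (w 2) (w 3) (w 4) := by
    intro w; unfold LF; simp
  have hR : ∀ w : Fin 5 → ℕ, RF 0 w ↔ R0 (w 0) (w 1) (w 2) (w 3) (w 4) := by
    intro w; unfold RF; simp
  simp only [hL, hR, Matrix.cons_val_zero, Matrix.cons_val_one, Matrix.cons_val]
  constructor
  · exact L0_of _ _ _ _ _
  · intro h
    by_contra hcon
    obtain ⟨h1, h2, h3, h4, h5, h6, h7, h8⟩ := L0_to _ _ _ _ _ hcon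
    tauto

theorem RF0_rec (v : Fin 5 → ℕ) :
    RF 0 v ↔ (((∀ w, ¬ Move Ro v w) ∧ False) ∨ ∃ w, Move Ro v w ∧ ¬ LF 0 w) := by
  simp only [ro_iff, or_and_right, exists_or, and_assoc, exists_and_left, exists_eq_left, and_false,
    false_or]
  have hL : ∀ w : Fin 5 → ℕ, LF 0 w ↔ L0 (w 0) (w 1) (w 2) (w 3) (w 4) := by
    intro w; unfold LF; simp
  have hR : ∀ w : Fin 5 → ℕ, RF 0 w ↔ R0 (w 0) (w 1) (w 2) (w 3) (w 4) := by
    intro w; unfold RF; simp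
  simp only [hL, hR, Matrix.cons_val_zero, Matrix.cons_val_one, Matrix.cons_val]
  constructor
  · exact R0_of _ _ _ _ _
  · intro h
    by_contra hcon
    obtain ⟨h1, h2, h3, h4, h5, h6, h7, h8⟩ := R0_to _ _ _ _ _ hcon
    tauto

theorem L1_zero : L1 0 0 0 0 0 := by
  unfold L1 L0
  omega

theorem R1_zero : R1 0 0 0 0 0 := by
  unfold R1 R0
  omega

theorem LF1_rec (v : Fin 5 → ℕ) :
    LF 1 v ↔ (((∀ w, ¬ Move Lo v w) ∧ True) ∨ ∃ w, Move Lo v w ∧ ¬ RF 1 w) := by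
  rw [lo_term]
  simp only [lo_iff, or_and_right, exists_or, and_assoc, exists_and_left, exists_eq_left, and_true]
  have hL : ∀ w : Fin 5 → ℕ, LF 1 w ↔ L1 (w 0) (w 1) (w 2) (w 3) (w 4) := by
    intro w; unfold LF; simp
  have hR : ∀ w : Fin 5 → ℕ, RF 1 w ↔ R1 (w 0) (w 1) (w 2) (w 3) (w 4) := by
    intro w; unfold RF; simp
  simp only [hL, hR, Matrix.cons_val_zero, Matrix.cons_val_one, Matrix.cons_val]
  constructor
  · exact L1_of _ _ _ _ _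
  · rintro (⟨h0, h1, h2, h3, h4⟩ | h)
    · rw [h0, h1, h2, h3, h4]
      exact L1_zero
    · by_contra hcon
      obtain ⟨h1, h2, h3, h4, h5, h6, h7, h8⟩ := L1_to _ _ _ _ _ hcon
      tauto

theorem RF1_rec (v : Fin 5 → ℕ) :
    RF 1 v ↔ (((∀ w, ¬ Move Ro v w) ∧ True) ∨ ∃ w, Move Ro v w ∧ ¬ LF 1 w) := by
  rw [ro_term]
  simp only [ro_iff, or_and_right, exists_or, and_assoc, exists_and_left, exists_eq_left, and_true]
  have hL : ∀ w : Fin 5 → ℕ, LF 1 w ↔ L1 (w 0) (w 1) (w 2) (w 3) (w 4) := by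
    intro w; unfold LF; simp
  have hR : ∀ w : Fin 5 → ℕ, RF 1 w ↔ R1 (w 0) (w 1) (w 2) (w 3) (w 4) := by
    intro w; unfold RF; simp
  simp only [hL, hR, Matrix.cons_val_zero, Matrix.cons_val_one, Matrix.cons_val]
  constructor
  · exact R1_of _ _ _ _ _
  · rintro (⟨h0, h1, h2, h3, h4⟩ | h)
    · rw [h0, h1, h2, h3, h4]
      exact R1_zero
    · by_contra hcon
      obtain ⟨h1, h2, h3, h4, h5, h6, h7, h8⟩ := R1_to _ _ _ _ _ hcon
      tauto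

theorem rep_first {G : Game} {v : Fin 5 → ℕ} (h : Rep (Move Lo) (Move Ro) G v) :
    (((first False G).1 ↔ L0 (v 0) (v 1) (v 2) (v 3) (v 4)) ∧
      ((first False G).2 ↔ R0 (v 0) (v 1) (v 2) (v 3) (v 4))) ∧
    (((first True G).1 ↔ L1 (v 0) (v 1) (v 2) (v 3) (v 4)) ∧
      ((first True G).2 ↔ R1 (v 0) (v 1) (v 2) (v 3) (v 4))) := by
  have h0 := Rep.first LF0_rec RF0_rec G v h
  have h1 := Rep.first LF1_rec RF1_rec G v h
  unfold LF RF at h0 h1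
  simpa using And.intro h0 h1

/-! ### The closed set -/

theorem rep_zero : Rep (Move Lo) (Move Ro) zero ![0, 0, 0, 0, 0] := by
  refine ⟨⟨fun i => i.elim0, fun w hw => ?_⟩, fun i => i.elim0, fun w hw => ?_⟩
  · rw [lo_iff] at hw; simp at hw
  · rw [ro_iff] at hw; simp at hw

theorem rep_star : Rep (Move Lo) (Move Ro) star ![1, 0, 0, 0, 0] := by
  refine ⟨⟨fun i => ⟨![0, 0, 0, 0, 0], ?_, rep_zero⟩, fun w hw => ⟨0, ?_⟩⟩,
    fun i => ⟨![0, 0, 0, 0, 0], ?_, rep_zero⟩, fun w hw => ⟨0, ?_⟩⟩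
  · rw [lo_iff]; simp
  · rw [lo_iff] at hw
    simp at hw
    rw [hw]
    exact rep_zero
  · rw [ro_iff]; simp
  · rw [ro_iff] at hw
    simp at hw
    rw [hw]
    exact rep_zero

theorem rep_g2 : Rep (Move Lo) (Move Ro) g2 ![0, 1, 0, 0, 0] := by
  refine ⟨⟨?_, fun w hw => ?_⟩, ?_, fun w hw => ?_⟩
  · intro i
    fin_cases i
    · exact ⟨![0, 0, 0, 0, 0], by rw [lo_iff]; simp, rep_zero⟩
    · exact ⟨![1, 0, 0, 0, 0], by rw [lo_iff]; simp, rep_star⟩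
  · rw [lo_iff] at hw
    simp at hw
    rcases hw with rfl | rfl
    · exact ⟨0, rep_zero⟩
    · exact ⟨1, rep_star⟩
  · intro i
    fin_cases i
    · exact ⟨![0, 0, 0, 0, 0], by rw [ro_iff]; simp, rep_zero⟩
    · exact ⟨![1, 0, 0, 0, 0], by rw [ro_iff]; simp, rep_star⟩
  · rw [ro_iff] at hw
    simp at hw
    rcases hw with rfl | rfl
    · exact ⟨0, rep_zero⟩
    · exact ⟨1, rep_star⟩

theorem rep_gc : Rep (Move Lo) (Move Ro) gc ![0, 0, 1, 0, 0] := by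
  refine ⟨⟨?_, fun w hw => ?_⟩, ?_, fun w hw => ?_⟩
  · intro i
    fin_cases i
    exact ⟨![0, 0, 0, 0, 0], by rw [lo_iff]; simp, rep_zero⟩
  · rw [lo_iff] at hw
    simp at hw
    rw [hw]
    exact ⟨0, rep_zero⟩
  · intro i
    fin_cases i
    · exact ⟨![0, 0, 0, 0, 0], by rw [ro_iff]; simp, rep_zero⟩
    · exact ⟨![1, 0, 0, 0, 0], by rw [ro_iff]; simp, rep_star⟩
  · rw [ro_iff] at hw
    simp at hw
    rcases hw with rfl | rfl
    · exact ⟨0, rep_zero⟩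
    · exact ⟨1, rep_star⟩

theorem rep_gu : Rep (Move Lo) (Move Ro) gu ![0, 0, 0, 1, 0] := by
  refine ⟨⟨?_, fun w hw => ?_⟩, ?_, fun w hw => ?_⟩
  · intro i
    fin_cases i
    · exact ⟨![0, 0, 0, 0, 0], by rw [lo_iff]; simp, rep_zero⟩
    · exact ⟨![1, 0, 0, 0, 0], by rw [lo_iff]; simp, rep_star⟩
  · rw [lo_iff] at hw
    simp at hw
    rcases hw with rfl | rfl
    · exact ⟨0, rep_zero⟩
    · exact ⟨1, rep_star⟩
  · intro i
    fin_cases i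
    exact ⟨![0, 0, 0, 0, 0], by rw [ro_iff]; simp, rep_zero⟩
  · rw [ro_iff] at hw
    simp at hw
    rw [hw]
    exact ⟨0, rep_zero⟩

theorem rep_ge : Rep (Move Lo) (Move Ro) ge ![0, 0, 0, 0, 1] := by
  refine ⟨⟨?_, fun w hw => ?_⟩, ?_, fun w hw => ?_⟩
  · intro i
    fin_cases i
    · exact ⟨![0, 0, 0, 0, 0], by rw [lo_iff]; simp, rep_zero⟩
    · exact ⟨![0, 0, 0, 1, 0], by rw [lo_iff]; simp, rep_gu⟩
  · rw [lo_iff] at hw
    simp at hw
    rcases hw with rfl | rfl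
    · exact ⟨0, rep_zero⟩
    · exact ⟨1, rep_gu⟩
  · intro i
    fin_cases i
    · exact ⟨![0, 0, 0, 0, 0], by rw [ro_iff]; simp, rep_zero⟩
    · exact ⟨![0, 1, 0, 0, 0], by rw [ro_iff]; simp, rep_g2⟩
  · rw [ro_iff] at hw
    simp at hw
    rcases hw with rfl | rfl
    · exact ⟨0, rep_zero⟩
    · exact ⟨1, rep_g2⟩

theorem rep_add {G H : Game} {v w : Fin 5 → ℕ} (hG : Rep (Move Lo) (Move Ro) G v)
    (hH : Rep (Move Lo) (Move Ro) H w) : Rep (Move Lo) (Move Ro) (add G H) (v + w) :=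
  Rep.add (move_add Lo) (move_add Ro) G v hG H w hH

/-- All sums of copies of `*`, `*2`, `-u`, `u` and `e`. -/
def A : Set Game := {X | ∃ v, Rep (Move Lo) (Move Ro) X v}

theorem closed_A : IsClosedSet A := by
  refine ⟨?_, ?_, ?_⟩
  · rintro G ⟨v, hv⟩ H ⟨w, hw⟩
    exact ⟨v + w, rep_add hv hw⟩
  · rintro G ⟨v, hv⟩ G' hG'
    rw [rep_iff] at hv
    obtain ⟨w, -, hw⟩ := hv.1.1 G' hG'
    exact ⟨w, hw⟩
  · rintro G ⟨v, hv⟩ G' hG'
    rw [rep_iff] at hv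
    obtain ⟨w, -, hw⟩ := hv.2.1 G' hG'
    exact ⟨w, hw⟩

theorem dicotic_A : ∀ X ∈ A, Dicotic X := by
  rintro X ⟨v, hv⟩
  refine Rep.dicotic ?_ X v hv
  intro v
  rw [lo_term, ro_term]

/-- The evil kernel of all firm games. -/
theorem evil_kernel : IsEvilKernel A {G | G ∈ A ∧ oPlus G = oMinus G} := by
  classical
  refine ⟨fun G hG => hG.1, ?_⟩
  rintro G ⟨v, hv⟩
  have hGA : G ∈ A := ⟨v, hv⟩
  unfold twin
  by_cases h : oPlus G = oMinus G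
  · rw [if_pos ⟨hGA, h⟩]
    exact ⟨h, h.symm⟩
  · rw [if_neg (fun h2 => h h2.2)]
    obtain ⟨⟨h1, h2⟩, h3, h4⟩ := rep_first hv
    obtain ⟨⟨k1, k2⟩, k3, k4⟩ := rep_first (rep_add hv rep_star)
    simp only [Pi.add_apply, Matrix.cons_val_zero, Matrix.cons_val_one, Matrix.cons_val, add_zero]
      at k1 k2 k3 k4
    have hfick : v 1 = 0 ∧ v 4 ≤ 1 := by
      by_contra hcon
      apply h
      have hf : 1 ≤ v 1 ∨ 2 ≤ v 4 := by omega
      unfold oPlus oMinus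
      rw [outcome_eq_iff, h1, h2, h3, h4, L1_firm hf, R1_firm hf]
      exact ⟨Iff.rfl, Iff.rfl⟩
    unfold oPlus oMinus
    rw [outcome_eq_iff, outcome_eq_iff, h1, h2, h3, h4, k1, k2, k3, k4,
      L1_fickle hfick.1 hfick.2, R1_fickle hfick.1 hfick.2, L1_fickle hfick.1 hfick.2,
      R1_fickle hfick.1 hfick.2, L0_two, R0_two]
    exact ⟨⟨Iff.rfl, Iff.rfl⟩, Iff.rfl, Iff.rfl⟩

theorem no_normal (K : Set Game) (hK : IsEvilKernel A K) : ¬ EvillyNormal A K := by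
  classical
  intro hn
  have hc : gc ∉ K := by
    intro h
    have h1 := (hK.2 gc ⟨_, rep_gc⟩).1
    unfold twin at h1
    rw [if_pos h] at h1
    unfold oPlus oMinus at h1
    rw [outcome_eq_iff] at h1
    have h2 := rep_first rep_gc
    have h3 := h1.1
    rw [h2.1.1, h2.2.1] at h3
    simp [L0, L1] at h3
  have he : ge ∉ K := by
    intro h
    have h1 := (hK.2 ge ⟨_, rep_ge⟩).1
    unfold twin at h1
    rw [if_pos h] at h1
    unfold oPlus oMinus at h1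
    rw [outcome_eq_iff] at h1
    have h2 := rep_first rep_ge
    have h3 := h1.2
    rw [h2.1.2, h2.2.2] at h3
    simp [R0, R1] at h3
  have r1 := rep_add rep_gc rep_ge
  have r2 := rep_add r1 rep_ge
  have r3 := rep_add r2 rep_star
  have h1 : add gc ge ∉ K := (hn gc ⟨_, rep_gc⟩ ge ⟨_, rep_ge⟩).2 ⟨hc, he⟩
  have h2 : add (add gc ge) ge ∉ K := (hn _ ⟨_, r1⟩ ge ⟨_, rep_ge⟩).2 ⟨h1, he⟩
  have h3 := (hK.2 _ ⟨_, r2⟩).1
  unfold twin at h3
  rw [if_neg h2] at h3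
  unfold oPlus oMinus at h3
  rw [outcome_eq_iff] at h3
  have h4 := h3.2
  rw [(rep_first r2).1.2, (rep_first r3).2.2] at h4
  simp [R0, R1] at h4

/-- There is a closed set `A` of dicotic games with `* ∈ A` and the evil twin property such that `(A, K)`
is not evilly normal for any evil kernel `K` of `A`. -/
theorem result : ∃ A : Set Game, IsClosedSet A ∧ (∀ G ∈ A, Dicotic G) ∧ star ∈ A ∧
    (∃ K, IsEvilKernel A K) ∧ ∀ K, IsEvilKernel A K → ¬ EvillyNormal A K :=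
  ⟨A, closed_A, dicotic_A, ⟨_, rep_star⟩, ⟨_, evil_kernel⟩, no_normal⟩

end Pool.Agent.Results.MP_df1cff_co.NoNormalKernel
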